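import Mathlib

set_option autoImplicit false

open Subgroup

namespace Pool.Agent.Results.MP_a5a406_al.LocallyFinite

/-- A finite subgroup any two elements of which lie in a common cyclic subgroup of it is cyclic. -/
theorem cyclic_of_pairs {G : Type} [Group G] [Finite G] (C : Subgroup G)
    (h : ∀ a ∈ C, ∀ b ∈ C, ∃ c ∈ C, a ∈ zpowers c ∧ b ∈ zpowers c) :
    ∃ c ∈ C, C = zpowers c := by
  obtain ⟨c, hc, hmax⟩ := Set.exists_max_image (C : Set G) (fun c => Nat.card (zpowers c))
    (Set.toFinite _) ⟨1, C.one_mem⟩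
  refine ⟨c, hc, le_antisymm ?_ (by simpa using hc)⟩
  intro a ha
  obtain ⟨d, hd, h1, h2⟩ := h a ha c hc
  have h3 : zpowers c ≤ zpowers d := by simpa using h2
  have h4 : zpowers c = zpowers d := Subgroup.eq_of_le_of_card_ge h3 (hmax d hd)
  rw [h4]
  exact h1

/-- Two elements of order two of a cyclic subgroup are equal. -/
theorem inv_unique {G : Type} [Group G] [Finite G] (c a b : G) (ha : a ∈ zpowers c)
    (hb : b ∈ zpowers c) (ha2 : orderOf a = 2) (hb2 : orderOf b = 2) : a = b := by
  classical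
  have _ : Fintype (zpowers c) := Fintype.ofFinite _
  by_contra hne
  have h1 := IsCyclic.card_pow_eq_one_le (α := zpowers c) (n := 2) (by norm_num)
  let a' : zpowers c := ⟨a, ha⟩
  let b' : zpowers c := ⟨b, hb⟩
  have h2 : ({1, a', b'} : Finset (zpowers c)) ⊆ Finset.univ.filter (fun x => x ^ 2 = 1) := by
    intro x hx
    simp only [Finset.mem_insert, Finset.mem_singleton] at hx
    simp only [Finset.mem_filter, Finset.mem_univ, true_and]
    rcases hx with rfl | rfl | rfl
    · simp
    · exact Subtype.ext (by rw [← ha2]; exact pow_orderOf_eq_one a)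
    · exact Subtype.ext (by rw [← hb2]; exact pow_orderOf_eq_one b)
  have h3 := Finset.card_le_card h2
  have h4 : ({1, a', b'} : Finset (zpowers c)).card = 3 := by
    rw [Finset.card_eq_three]
    refine ⟨1, a', b', ?_, ?_, ?_, rfl⟩
    · intro h
      have : a = 1 := congrArg Subtype.val h.symm
      rw [this, orderOf_one] at ha2
      omega
    · intro h
      have : b = 1 := congrArg Subtype.val h.symm
      rw [this, orderOf_one] at hb2
      omega
    · intro h
      exact hne (congrArg Subtype.val h)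
  omega

theorem fin_case (G : Type) [Group G] [Finite G] (i : G) (hi : orderOf i = 2)
    (h2 : IsPGroup 2 (centralizer ({i} : Set G)))
    (hc : ∀ a ∈ centralizer ({i} : Set G), ∀ b ∈ centralizer ({i} : Set G),
      ∃ c ∈ centralizer ({i} : Set G), a ∈ zpowers c ∧ b ∈ zpowers c) :
    ∃ K : Subgroup G, (∀ g : G, Odd (orderOf g) → g ∈ K) ∧ (∀ g ∈ K, Odd (orderOf g)) ∧
      (∀ g ∈ K, i * g * i⁻¹ = g⁻¹) ∧
      (∀ g : G, ∃ k ∈ K, ∃ c ∈ centralizer ({i} : Set G), g = k * c) := by
  have _ : Fact (Nat.Prime 2) := ⟨Nat.prime_two⟩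
  have hzi : IsPGroup 2 (zpowers i) := IsPGroup.of_card (n := 1) (by rw [Nat.card_zpowers, hi, pow_one])
  obtain ⟨P, hP⟩ := hzi.exists_le_sylow
  have hiP : i ∈ P := hP (mem_zpowers i)
  have hi1 : i ≠ 1 := by
    rintro rfl
    rw [orderOf_one] at hi
    omega
  have hmc : ∀ g : G, g ∈ centralizer ({i} : Set G) ↔ i * g = g * i := by
    intro g
    rw [mem_centralizer_singleton_iff]
    exact eq_comm
  -- the involution is central in P
  have hcent : ∀ g ∈ P, i * g = g * i := by
    have hnt : Nontrivial P := ⟨⟨⟨i, hiP⟩, 1, fun h => hi1 (congrArg Subtype.val h)⟩⟩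
    have hcn := P.2.center_nontrivial
    have hcard : 2 ∣ Nat.card (center P) := by
      have h3 : IsPGroup 2 (center P) := P.2.to_subgroup _
      obtain ⟨n, hn⟩ := h3.exists_card_eq
      have h4 : 1 < Nat.card (center P) := Finite.one_lt_card
      rw [hn] at h4 ⊢
      exact dvd_pow_self 2 (by rintro rfl; simp at h4)
    obtain ⟨z, hz⟩ := exists_prime_orderOf_dvd_card' 2 hcard
    have hz2 : orderOf (((z : P) : G)) = 2 := by
      rw [Subgroup.orderOf_coe, Subgroup.orderOf_coe]
      exact hz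
    have hzc : ∀ g ∈ P, ((z : P) : G) * g = g * ((z : P) : G) := by
      intro g hg
      have := (mem_center_iff.mp z.2) ⟨g, hg⟩
      exact (congrArg Subtype.val this).symm
    have h5 : ((z : P) : G) ∈ centralizer ({i} : Set G) := (hmc _).mpr (hzc i hiP).symm
    obtain ⟨c, _, hc1, hc2⟩ := hc _ h5 i ((hmc i).mpr rfl)
    have h6 := inv_unique c _ _ hc1 hc2 hz2 hi
    rw [← h6]
    exact hzc
  obtain ⟨c, hcC, hcyc⟩ := cyclic_of_pairs _ hc
  have hPle : (P : Subgroup G) ≤ zpowers c := by
    rw [← hcyc]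
    exact fun g hg => (hmc g).mpr (hcent g hg)
  have hPcyc : IsCyclic (P : Subgroup G) := Subgroup.isCyclic_of_le hPle
  have hmin : (Nat.card G).minFac = 2 := by
    rw [Nat.minFac_eq_two_iff, ← hi]
    exact orderOf_dvd_natCard i
  have hn := hPcyc.normalizer_le_centralizer hmin
  have hK2 := MonoidHom.not_dvd_card_ker_transferSylow P hn
  refine ⟨(MonoidHom.transferSylow P hn).ker, ?_, ?_, ?_, ?_⟩
  · intro g hg
    rw [MonoidHom.mem_ker]
    obtain ⟨n, hn'⟩ := P.2 (MonoidHom.transferSylow P hn g)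
    have h7 : orderOf (MonoidHom.transferSylow P hn g) ∣ Nat.gcd (orderOf g) (2 ^ n) :=
      Nat.dvd_gcd (orderOf_map_dvd _ g) (orderOf_dvd_of_pow_eq_one hn')
    have h8 : Nat.Coprime (orderOf g) (2 ^ n) := (Nat.coprime_two_right.mpr hg).pow_right n
    rw [h8] at h7
    exact orderOf_eq_one_iff.mp (Nat.dvd_one.mp h7)
  · intro g hg
    rw [← Nat.not_even_iff_odd, even_iff_two_dvd]
    exact fun h => hK2 (h.trans (Subgroup.orderOf_dvd_natCard _ hg))
  · intro g hg
    set K := (MonoidHom.transferSylow P hn).ker with hK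
    have hKn : K.Normal := inferInstance
    have hii : i * i = 1 := by
      have := pow_orderOf_eq_one i
      rwa [hi, pow_two] at this
    have hinv : i⁻¹ = i := inv_eq_of_mul_eq_one_left hii
    let f : K → K := fun a => a⁻¹ * ⟨i * a * i⁻¹, hKn.conj_mem _ a.2 i⟩
    have hf : Function.Injective f := by
      intro a b hab
      have h9 : (a : G)⁻¹ * (i * a * i⁻¹) = (b : G)⁻¹ * (i * b * i⁻¹) := congrArg Subtype.val hab
      have h10 : i * ((b : G) * (a : G)⁻¹) = ((b : G) * (a : G)⁻¹) * i := by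
        have h11 : (b : G) * ((a : G)⁻¹ * (i * a * i⁻¹)) * (i * (a : G)⁻¹)
            = (b : G) * ((b : G)⁻¹ * (i * b * i⁻¹)) * (i * (a : G)⁻¹) := by rw [h9]
        have h12 : (b : G) * ((a : G)⁻¹ * (i * a * i⁻¹)) * (i * (a : G)⁻¹)
            = ((b : G) * (a : G)⁻¹) * i := by group
        have h13 : (b : G) * ((b : G)⁻¹ * (i * b * i⁻¹)) * (i * (a : G)⁻¹)
            = i * ((b : G) * (a : G)⁻¹) := by group
        rw [h12, h13] at h11
        exact h11.symm
      have h14 : (b : G) * (a : G)⁻¹ ∈ centralizer ({i} : Set G) := (hmc _).mpr h10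
      have h15 : (b : G) * (a : G)⁻¹ ∈ K := K.mul_mem b.2 (K.inv_mem a.2)
      obtain ⟨n, hn'⟩ := h2 ⟨_, h14⟩
      have h16 : ((b : G) * (a : G)⁻¹) ^ 2 ^ n = 1 := by
        have := congrArg Subtype.val hn'
        simpa using this
      have h17 : Odd (orderOf ((b : G) * (a : G)⁻¹)) := by
        rw [← Nat.not_even_iff_odd, even_iff_two_dvd]
        exact fun h => hK2 (h.trans (Subgroup.orderOf_dvd_natCard _ h15))
      have h18 : orderOf ((b : G) * (a : G)⁻¹) ∣
          Nat.gcd (orderOf ((b : G) * (a : G)⁻¹)) (2 ^ n) :=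
        Nat.dvd_gcd dvd_rfl (orderOf_dvd_of_pow_eq_one h16)
      rw [(Nat.coprime_two_right.mpr h17).pow_right n] at h18
      have h19 := orderOf_eq_one_iff.mp (Nat.dvd_one.mp h18)
      exact Subtype.ext (mul_inv_eq_one.mp h19).symm
    obtain ⟨a, ha⟩ := (Finite.injective_iff_surjective.mp hf) ⟨g, hg⟩
    have h20 : (a : G)⁻¹ * (i * a * i⁻¹) = g := congrArg Subtype.val ha
    rw [← h20, hinv]
    have h21 : i * ((a : G)⁻¹ * (i * a * i)) * i = i * (a : G)⁻¹ * i * a * (i * i) := by group
    rw [h21, hii, mul_one, mul_inv_rev, inv_inv, mul_inv_rev, mul_inv_rev, hinv]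
    group
  · intro g
    obtain ⟨⟨k, c⟩, h⟩ := (MonoidHom.ker_transferSylow_isComplement' P hn).2 g
    exact ⟨k, k.2, c, (hmc _).mpr (hcent _ c.2), h.symm⟩

/-- Passage to a finite subgroup containing the involution. -/
theorem sub_case {G : Type} [Group G] (i : G) (hi : orderOf i = 2)
    (h2 : IsPGroup 2 (centralizer ({i} : Set G)))
    (hc : ∀ a ∈ centralizer ({i} : Set G), ∀ b ∈ centralizer ({i} : Set G),
      ∃ c ∈ centralizer ({i} : Set G), a ∈ zpowers c ∧ b ∈ zpowers c)
    (H : Subgroup G) (hH : Finite H) (hiH : i ∈ H) :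
    ∃ K : Subgroup H, (∀ g : H, Odd (orderOf g) → g ∈ K) ∧ (∀ g ∈ K, Odd (orderOf g)) ∧
      (∀ g ∈ K, i * (g : G) * i⁻¹ = (g : G)⁻¹) ∧
      (∀ g : H, ∃ k ∈ K, ∃ c ∈ centralizer ({i} : Set G), (g : G) = (k : G) * c) := by
  let i' : H := ⟨i, hiH⟩
  have hmc : ∀ g : H, g ∈ centralizer ({i'} : Set H) ↔ (g : G) ∈ centralizer ({i} : Set G) := by
    intro g
    rw [mem_centralizer_singleton_iff, mem_centralizer_singleton_iff]
    constructor
    · intro h
      exact congrArg Subtype.val h
    · intro h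
      exact Subtype.ext h
  obtain ⟨K, h3, h4, h5, h6⟩ := fin_case H i' (by rw [← hi]; exact Subgroup.orderOf_mk i hiH)
    (fun g => by
      obtain ⟨n, hn⟩ := h2 ⟨((g : H) : G), (hmc _).mp g.2⟩
      refine ⟨n, Subtype.ext (Subtype.ext ?_)⟩
      have := congrArg Subtype.val hn
      simpa using this)
    (fun a ha b hb => by
      obtain ⟨c, _, hac, hbc⟩ := hc _ ((hmc a).mp ha) _ ((hmc b).mp hb)
      have hle : closure ({(a : G), (b : G)} : Set G) ≤ zpowers c := by
        rw [closure_le]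
        intro x hx
        rcases hx with rfl | hx
        · exact hac
        · rw [Set.mem_singleton_iff] at hx
          rw [hx]
          exact hbc
      have hleH : closure ({(a : G), (b : G)} : Set G) ≤ H := by
        rw [closure_le]
        intro x hx
        rcases hx with rfl | hx
        · exact a.2
        · rw [Set.mem_singleton_iff] at hx
          rw [hx]
          exact b.2
      have hleC : closure ({(a : G), (b : G)} : Set G) ≤ centralizer ({i} : Set G) := by
        rw [closure_le]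
        intro x hx
        rcases hx with rfl | hx
        · exact (hmc a).mp ha
        · rw [Set.mem_singleton_iff] at hx
          rw [hx]
          exact (hmc b).mp hb
      have hcyc : IsCyclic (closure ({(a : G), (b : G)} : Set G)) := Subgroup.isCyclic_of_le hle
      obtain ⟨d, hd⟩ := hcyc.exists_generator
      have key : ∀ x : H, (x : G) ∈ closure ({(a : G), (b : G)} : Set G) →
          x ∈ zpowers (⟨(d : G), hleH d.2⟩ : H) := by
        intro x hx
        obtain ⟨k, hk⟩ := mem_zpowers_iff.mp (hd ⟨(x : G), hx⟩)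
        refine mem_zpowers_iff.mpr ⟨k, Subtype.ext ?_⟩
        have := congrArg Subtype.val hk
        simpa using this
      exact ⟨⟨(d : G), hleH d.2⟩, (hmc _).mpr (hleC d.2), key a (subset_closure (by simp)),
        key b (subset_closure (by simp))⟩)
  refine ⟨K, h3, h4, ?_, ?_⟩
  · intro g hg
    exact congrArg Subtype.val (h5 g hg)
  · intro g
    obtain ⟨k, hk, c, hc', h7⟩ := h6 g
    exact ⟨k, hk, (c : G), (hmc c).mp hc', congrArg Subtype.val h7⟩

/-- **Main result.** Let `i` be an involution of a group `G` such that `C_G(i)` is a locally cyclic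
`2`-group. (1) If `x`, `y` have odd order and are inverted by `i`, and `⟨i, x, y⟩` is finite, then
`x y` has odd order, is inverted by `i`, and `x y = y x`. (2) If `G` is locally finite then the
elements of odd order of `G` form a normal abelian subgroup, all its elements are inverted by `i`,
and `G` is the product of this subgroup and `C_G(i)`. -/
theorem result :
    ∀ (G : Type) [Group G] (i : G), orderOf i = 2 →
      IsPGroup 2 (Subgroup.centralizer ({i} : Set G)) →
      (∀ a ∈ Subgroup.centralizer ({i} : Set G), ∀ b ∈ Subgroup.centralizer ({i} : Set G),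
        ∃ c ∈ Subgroup.centralizer ({i} : Set G),
          a ∈ Subgroup.zpowers c ∧ b ∈ Subgroup.zpowers c) →
      (∀ x y : G, Odd (orderOf x) → i * x * i⁻¹ = x⁻¹ → Odd (orderOf y) → i * y * i⁻¹ = y⁻¹ →
        Finite (Subgroup.closure ({i, x, y} : Set G)) →
        Odd (orderOf (x * y)) ∧ i * (x * y) * i⁻¹ = (x * y)⁻¹ ∧ x * y = y * x) ∧
      ((∀ H : Subgroup G, H.FG → Finite H) →
        ∃ H : Subgroup G, (H : Set G) = {g : G | Odd (orderOf g) ∧ i * g * i⁻¹ = g⁻¹} ∧
          (H : Set G) = {g : G | Odd (orderOf g)} ∧ H.Normal ∧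
          (∀ x ∈ H, ∀ y ∈ H, x * y = y * x) ∧
          (∀ g : G, ∃ h ∈ H, ∃ c ∈ Subgroup.centralizer ({i} : Set G), g = h * c)) := by
  intro G _ i hi h2 hc
  have hord : ∀ (H : Subgroup G) (g : H), orderOf g = orderOf (g : G) := fun H g =>
    (Subgroup.orderOf_coe g).symm
  have h1 : ∀ x y : G, Odd (orderOf x) → Odd (orderOf y) →
      Finite (Subgroup.closure ({i, x, y} : Set G)) →
      Odd (orderOf (x * y)) ∧ i * (x * y) * i⁻¹ = (x * y)⁻¹ ∧ x * y = y * x ∧
        i * x * i⁻¹ = x⁻¹ := by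
    intro x y hx hy hfin
    obtain ⟨K, k1, k2, k3, _⟩ := sub_case i hi h2 hc _ hfin (subset_closure (by simp))
    have hxm : x ∈ closure ({i, x, y} : Set G) := subset_closure (by simp)
    have hym : y ∈ closure ({i, x, y} : Set G) := subset_closure (by simp)
    have hxK := k1 ⟨x, hxm⟩ (by rw [hord]; exact hx)
    have hyK := k1 ⟨y, hym⟩ (by rw [hord]; exact hy)
    have e1 := k2 _ (K.mul_mem hxK hyK)
    rw [hord] at e1
    have e2 := k3 _ (K.mul_mem hxK hyK)
    have e3 := k3 _ hxK
    have e4 := k3 _ hyK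
    simp only [MulMemClass.mk_mul_mk] at e1 e2 e3 e4
    refine ⟨e1, e2, ?_, e3⟩
    have e5 : i * (x * y) * i⁻¹ = (i * x * i⁻¹) * (i * y * i⁻¹) := by group
    rw [e2, e3, e4, mul_inv_rev] at e5
    have e6 := congrArg (fun g => g⁻¹) e5
    simpa using e6
  refine ⟨fun x y hx _ hy _ hfin => ⟨(h1 x y hx hy hfin).1, (h1 x y hx hy hfin).2.1,
    (h1 x y hx hy hfin).2.2.1⟩, ?_⟩
  intro hlf
  have hfg : ∀ x y : G, Finite (closure ({i, x, y} : Set G)) := fun x y =>
    hlf _ ((Subgroup.fg_iff _).mpr ⟨_, rfl, by simp⟩)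
  have hodd : ∀ x : G, Odd (orderOf x) → i * x * i⁻¹ = x⁻¹ := fun x hx =>
    (h1 x x hx hx (hfg x x)).2.2.2
  let H : Subgroup G :=
    { carrier := {g : G | Odd (orderOf g)}
      mul_mem' := fun {x y} hx hy => (h1 x y hx hy (hfg x y)).1
      one_mem' := by simp
      inv_mem' := fun {x} hx => by
        simpa using hx }
  refine ⟨H, ?_, rfl, ?_, ?_, ?_⟩
  · ext g
    exact ⟨fun hg => ⟨hg, hodd g hg⟩, fun hg => hg.1⟩
  · refine ⟨fun n hn g => ?_⟩
    change Odd (orderOf (g * n * g⁻¹))
    have h9 : g * n * g⁻¹ = MulAut.conj g n := rfl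
    rw [h9, MulEquiv.orderOf_eq]
    exact hn
  · intro x hx y hy
    exact (h1 x y hx hy (hfg x y)).2.2.1
  · intro g
    obtain ⟨K, _, k2, _, k4⟩ := sub_case i hi h2 hc _ (hfg g g) (subset_closure (by simp))
    obtain ⟨k, hk, c, hcc, h7⟩ := k4 ⟨g, subset_closure (by simp)⟩
    refine ⟨k, ?_, c, hcc, h7⟩
    have := k2 k hk
    rw [hord] at this
    exact this

end Pool.Agent.Results.MP_a5a406_al.LocallyFinite
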